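import Pool.Agent.W192.HK.Parts

/-! HK-LAT: points of a coset of an ideal in a disc. -/

set_option autoImplicit false

namespace Pool.Agent.W585.HK

open Pool.Agent.W192.HK

theorem card_Icc_floor (u : ℝ) (hu : 0 ≤ u) :
    ((Finset.Icc ⌊-u⌋ ⌊u⌋).card : ℝ) ≤ 2 * u + 2 := by
  rw [Int.card_Icc]
  have h2 : 0 ≤ ⌊u⌋ + 1 - ⌊-u⌋ := by
    have : ⌊-u⌋ ≤ ⌊u⌋ := Int.floor_le_floor (by linarith)
    omega
  have h4 : ((⌊u⌋ + 1 - ⌊-u⌋).toNat : ℝ) = ((⌊u⌋ + 1 - ⌊-u⌋ : ℤ) : ℝ) := by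
    rw [← Int.cast_natCast, Int.toNat_of_nonneg h2]
  rw [h4]
  push_cast
  linarith [Int.floor_le u, Int.lt_floor_add_one (-u)]

theorem h_lat (h1 : H_BASIC) : H_LAT := by
  intro R ω hR
  have hded := hR.ded
  obtain ⟨_, _, hone, _, hsp, hdvd, _, _, _⟩ := h1 R ω hR
  refine ⟨24, by norm_num, fun I hI a y hy => ?_⟩
  have hN : 0 < nm I := lt_of_lt_of_le one_pos (hone I hI)
  obtain ⟨s, hs⟩ : ∃ s : ℝ, s = Real.sqrt (nm I) := ⟨_, rfl⟩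
  have hs0 : 0 < s := by rw [hs]; exact Real.sqrt_pos.2 hN
  have hs2 : s ^ 2 = nm I := by rw [hs]; exact Real.sq_sqrt hN.le
  obtain ⟨ρ, hρ⟩ : ∃ ρ : ℝ, ρ = Real.sqrt y / s := ⟨_, rfl⟩
  have hρ0 : 0 ≤ ρ := by rw [hρ]; positivity
  have hρ2 : ρ ^ 2 = y / nm I := by rw [hρ, div_pow, Real.sq_sqrt hy, hs2]
  obtain ⟨S, hS⟩ : ∃ S : Set R, S = {α : R | Complex.normSq (α : ℂ) ≤ y ∧ α - a ∈ I} := ⟨_, rfl⟩
  rw [← hS]
  let f : R → ℤ × ℤ := fun α => (⌊2 * ((α : ℂ).re / s)⌋, ⌊2 * ((α : ℂ).im / s)⌋)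
  let F : Finset (ℤ × ℤ) := Finset.Icc ⌊-(2 * ρ)⌋ ⌊2 * ρ⌋ ×ˢ Finset.Icc ⌊-(2 * ρ)⌋ ⌊2 * ρ⌋
  have hbd : ∀ t : ℝ, |t| ≤ Real.sqrt y → -(2 * ρ) ≤ 2 * (t / s) ∧ 2 * (t / s) ≤ 2 * ρ := by
    intro t ht
    rw [abs_le] at ht
    have e1 : t / s ≤ ρ := by rw [hρ]; exact div_le_div_of_nonneg_right ht.2 hs0.le
    have e2 : -ρ ≤ t / s := by
      rw [hρ, ← neg_div]; exact div_le_div_of_nonneg_right ht.1 hs0.le
    constructor <;> linarith
  have hmaps : Set.MapsTo f S (F : Set (ℤ × ℤ)) := by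
    intro α hα
    rw [hS] at hα
    have hα1 : Complex.normSq (α : ℂ) ≤ y := hα.1
    rw [Complex.normSq_apply] at hα1
    have hre : |(α : ℂ).re| ≤ Real.sqrt y := by
      apply Real.abs_le_sqrt
      nlinarith [mul_self_nonneg (α : ℂ).im]
    have him : |(α : ℂ).im| ≤ Real.sqrt y := by
      apply Real.abs_le_sqrt
      nlinarith [mul_self_nonneg (α : ℂ).re]
    simp only [F, f, Finset.coe_product, Set.mem_prod, Finset.coe_Icc, Set.mem_Icc]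
    exact ⟨⟨Int.floor_le_floor (hbd _ hre).1, Int.floor_le_floor (hbd _ hre).2⟩,
      ⟨Int.floor_le_floor (hbd _ him).1, Int.floor_le_floor (hbd _ him).2⟩⟩
  have hclose : ∀ t u : ℝ, ⌊2 * (t / s)⌋ = ⌊2 * (u / s)⌋ → (t - u) ^ 2 < s ^ 2 / 4 := by
    intro t u h
    have e := Int.abs_sub_lt_one_of_floor_eq_floor h
    rw [abs_lt] at e
    have e1 : 2 * (t / s) - 2 * (u / s) = 2 * (t - u) / s := by ring
    rw [e1, lt_div_iff₀ hs0, div_lt_iff₀ hs0] at e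
    nlinarith [e.1, e.2]
  have hinj : Set.InjOn f S := by
    intro α hα β hβ hf
    by_contra hne
    rw [hS] at hα hβ
    rw [Prod.mk.injEq] at hf
    have e1 := hclose _ _ hf.1
    have e2 := hclose _ _ hf.2
    have hmem : α - β ∈ I := by
      have := I.sub_mem hα.2 hβ.2
      rwa [sub_sub_sub_cancel_right] at this
    have hne' : α - β ≠ 0 := sub_ne_zero.2 hne
    have h3 : nm I ≤ nm (sp (α - β)) := hdvd _ _ (by
      rw [Ne, Ideal.span_singleton_eq_bot]; exact hne') (Ideal.dvd_span_singleton.2 hmem)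
    rw [hsp, Complex.normSq_apply] at h3
    have e3 : ((α - β : R) : ℂ).re = (α : ℂ).re - (β : ℂ).re := by
      rw [← Complex.sub_re]; rfl
    have e4 : ((α - β : R) : ℂ).im = (α : ℂ).im - (β : ℂ).im := by
      rw [← Complex.sub_im]; rfl
    rw [e3, e4, ← hs2] at h3
    nlinarith [sq_nonneg s]
  have hfin : S.Finite := Set.Finite.of_injOn hmaps hinj F.finite_toSet
  refine ⟨hfin, ?_⟩
  have h5 : S.ncard ≤ F.card := by
    have := Set.ncard_le_ncard_of_injOn f hmaps hinj F.finite_toSet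
    rwa [Set.ncard_coe_finset] at this
  have h6 : (F.card : ℝ) ≤ (4 * ρ + 2) * (4 * ρ + 2) := by
    rw [Finset.card_product]
    push_cast
    have h7 := card_Icc_floor (2 * ρ) (by linarith)
    have h8 : (0 : ℝ) ≤ ((Finset.Icc ⌊-(2 * ρ)⌋ ⌊2 * ρ⌋).card : ℝ) := Nat.cast_nonneg _
    have h9 : ((Finset.Icc ⌊-(2 * ρ)⌋ ⌊2 * ρ⌋).card : ℝ) ≤ 4 * ρ + 2 := by linarith
    exact mul_le_mul h9 h9 h8 (by linarith)
  have h7 : (S.ncard : ℝ) ≤ F.card := by exact_mod_cast h5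
  rw [← hρ2]
  nlinarith [sq_nonneg (ρ - 1)]

end Pool.Agent.W585.HK
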